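import Mathlib

set_option autoImplicit false

namespace Pool.Agent.Results.MP_5aad23_co.WeakAscent210

open Finset

/-- Number of weak ascents of the initial segment `(a_0, …, a_{i-1})` of `a` (zero-based indexing),
that is, the number of positions `j` with `j + 1 < i` and `a_j ≤ a_{j+1}`. -/
noncomputable def wascBefore {n : ℕ} (a : Fin n → ℕ) (i : Fin n) : ℕ :=
  Nat.card {j : Fin n // ∃ j' : Fin n, j'.val = j.val + 1 ∧ j' < i ∧ a j ≤ a j'}

/-- Weak ascent sequences of length `n` (zero-based indexing): `a_0 = 0` and `a_i` is at most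
`1` plus the number of weak ascents of `(a_0, …, a_{i-1})` for `0 < i < n`. -/
def IsWeakAscentSeq {n : ℕ} (a : Fin n → ℕ) : Prop :=
  ∀ i : Fin n, (i.val = 0 → a i = 0) ∧ (0 < i.val → a i ≤ 1 + wascBefore a i)

/-- The sequence `a` avoids the pattern `210`. -/
def Avoids210 {n : ℕ} (a : Fin n → ℕ) : Prop :=
  ∀ i j k : Fin n, i < j → j < k → ¬ (a j < a i ∧ a k < a j)

/-- The permutation `π` (in one-line notation `π 0, π 1, …`) avoids the vincular pattern
`2-41-3`, in which the entries playing the roles of `4` and `1` are adjacent. -/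
def Avoids2413 {n : ℕ} (π : Equiv.Perm (Fin n)) : Prop :=
  ∀ i j j' k : Fin n, i < j → j'.val = j.val + 1 → j' < k →
    ¬ (π j' < π i ∧ π i < π k ∧ π k < π j)

/-! ### The generating tree of the semi-Baxter numbers -/

/-- number of nodes at depth `m` below a node labelled `(h, k)`. -/
def T : ℕ → ℕ → ℕ → ℕ
  | 0, _, _ => 1
  | m + 1, h, k => (∑ j ∈ range h, T m (j + 1) (k + 1)) + ∑ i ∈ range k, T m (h + i + 1) (k - i)

/-! ### Weak ascent sequences -/

def ws {n : ℕ} (a : Fin (n + 1) → ℕ) : ℕ :=
  (univ.filter (fun j : Fin n => a j.castSucc ≤ a j.succ)).card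

def mx {n : ℕ} (a : Fin (n + 1) → ℕ) : ℕ := univ.sup a

def bb {n : ℕ} (a : Fin (n + 1) → ℕ) : ℕ :=
  (univ.filter (fun j : Fin (n + 1) => ∃ i, i < j ∧ a j < a i)).sup a

def sn {n : ℕ} (a : Fin (n + 1) → ℕ) (x : ℕ) : Fin (n + 2) → ℕ := Fin.snoc (α := fun _ => ℕ) a x

@[simp] lemma sn_last {n : ℕ} (a : Fin (n + 1) → ℕ) (x : ℕ) : sn a x (Fin.last (n + 1)) = x := by
  simp [sn]

@[simp] lemma sn_castSucc {n : ℕ} (a : Fin (n + 1) → ℕ) (x : ℕ) (i : Fin (n + 1)) :
    sn a x i.castSucc = a i := by
  simp [sn]

lemma ws_sn {n : ℕ} (a : Fin (n + 1) → ℕ) (x : ℕ) :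
    ws (sn a x) = ws a + if a (Fin.last n) ≤ x then 1 else 0 := by
  unfold ws
  rw [Finset.card_filter, Finset.card_filter, Fin.sum_univ_castSucc]
  congr 1
  · apply Finset.sum_congr rfl
    intro j _
    rw [sn_castSucc, Fin.succ_castSucc, sn_castSucc]
  · rw [sn_castSucc, Fin.succ_last, sn_last]

lemma wascBefore_sn_castSucc {n : ℕ} (a : Fin (n + 1) → ℕ) (x : ℕ) (i : Fin (n + 1)) :
    wascBefore (sn a x) i.castSucc = wascBefore a i := by
  unfold wascBefore
  symm
  apply Nat.card_eq_of_bijective
    (f := fun (j : {j : Fin (n+1) // ∃ j' : Fin (n+1), j'.val = j.val + 1 ∧ j' < i ∧ a j ≤ a j'}) =>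
      (⟨j.1.castSucc, by
        obtain ⟨j, j', h1, h2, h3⟩ := j
        exact ⟨j'.castSucc, by simpa using h1, by simpa using h2, by simpa using h3⟩⟩ :
        {j : Fin (n+2) // ∃ j' : Fin (n+2), j'.val = j.val + 1 ∧ j' < i.castSucc ∧
          sn a x j ≤ sn a x j'}))
  constructor
  · intro u v huv
    have := congrArg (fun z => z.1) huv
    simp only [Fin.castSucc_inj] at this
    exact Subtype.ext this
  · rintro ⟨j, j', h1, h2, h3⟩
    have hi := i.isLt
    have hj' : j'.val < n + 1 := by
      have : j'.val < i.val := h2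
      omega
    have hj : j.val < n + 1 := by omega
    have e1 : j = (⟨j.val, hj⟩ : Fin (n+1)).castSucc := by ext; simp
    have e2 : j' = (⟨j'.val, hj'⟩ : Fin (n+1)).castSucc := by ext; simp
    refine ⟨⟨⟨j.val, hj⟩, ⟨j'.val, hj'⟩, h1, ?_, ?_⟩, ?_⟩
    · exact h2
    · rw [e1, e2, sn_castSucc, sn_castSucc] at h3
      exact h3
    · apply Subtype.ext
      simp

lemma wascBefore_sn_last {n : ℕ} (a : Fin (n + 1) → ℕ) (x : ℕ) :
    wascBefore (sn a x) (Fin.last (n + 1)) = ws a := by
  unfold wascBefore ws
  rw [← Nat.subtype_card (p := fun j : Fin n => a j.castSucc ≤ a j.succ)]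
  swap
  · intro j; simp
  symm
  apply Nat.card_eq_of_bijective
    (f := fun (j : {j : Fin n // a j.castSucc ≤ a j.succ}) =>
      (⟨j.1.castSucc.castSucc, j.1.succ.castSucc, by simp, by simp [Fin.lt_def], by
        rw [sn_castSucc, sn_castSucc]; exact j.2⟩ :
        {j : Fin (n+2) // ∃ j' : Fin (n+2), j'.val = j.val + 1 ∧ j' < Fin.last (n+1) ∧
          sn a x j ≤ sn a x j'}))
  constructor
  · intro u v huv
    have := congrArg (fun z => z.1) huv
    simp only [Fin.castSucc_inj] at this
    exact Subtype.ext this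
  · rintro ⟨j, j', h1, h2, h3⟩
    have hj' : j'.val < n + 1 := h2
    have hj : j.val < n := by omega
    have e1 : j = (⟨j.val, hj⟩ : Fin n).castSucc.castSucc := by ext; simp
    have e2 : j' = (⟨j.val, hj⟩ : Fin n).succ.castSucc := by ext; simp [h1]
    refine ⟨⟨⟨j.val, hj⟩, ?_⟩, ?_⟩
    · rw [e1, e2, sn_castSucc, sn_castSucc] at h3
      exact h3
    · apply Subtype.ext
      simp

lemma mx_sn {n : ℕ} (a : Fin (n + 1) → ℕ) (x : ℕ) : mx (sn a x) = max (mx a) x := by
  apply le_antisymm
  · unfold mx
    apply Finset.sup_le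
    intro i _
    refine Fin.lastCases ?_ ?_ i
    · simp
    · intro j
      rw [sn_castSucc]
      exact le_max_of_le_left (Finset.le_sup (f := a) (mem_univ j))
  · apply max_le
    · unfold mx
      apply Finset.sup_le
      intro i _
      have := Finset.le_sup (f := sn a x) (mem_univ i.castSucc)
      rwa [sn_castSucc] at this
    · have := Finset.le_sup (f := sn a x) (mem_univ (Fin.last (n+1)))
      rwa [sn_last] at this

lemma le_mx {n : ℕ} (a : Fin (n + 1) → ℕ) (i : Fin (n + 1)) : a i ≤ mx a :=
  Finset.le_sup (f := a) (mem_univ i)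

lemma lt_mx {n : ℕ} (a : Fin (n + 1) → ℕ) (x : ℕ) : x < mx a ↔ ∃ i, x < a i := by
  unfold mx
  rw [Finset.lt_sup_iff]
  simp

lemma le_bb {n : ℕ} (a : Fin (n + 1) → ℕ) (i j : Fin (n + 1)) (hij : i < j) (h : a j < a i) :
    a j ≤ bb a :=
  Finset.le_sup (f := a) (by simp only [mem_filter, mem_univ, true_and]; exact ⟨i, hij, h⟩)

lemma bb_le_iff {n : ℕ} (a : Fin (n + 1) → ℕ) (x : ℕ) :
    bb a ≤ x ↔ ∀ i j : Fin (n + 1), i < j → a j < a i → a j ≤ x := by
  unfold bb
  rw [Finset.sup_le_iff]
  constructor
  · intro h i j hij haij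
    exact h j (by simp only [mem_filter, mem_univ, true_and]; exact ⟨i, hij, haij⟩)
  · intro h j hj
    simp only [mem_filter, mem_univ, true_and] at hj
    obtain ⟨i, hij, haij⟩ := hj
    exact h i j hij haij

lemma bb_le_mx {n : ℕ} (a : Fin (n + 1) → ℕ) : bb a ≤ mx a := by
  rw [bb_le_iff]
  intro i j _ _
  exact le_mx a j

lemma bb_sn {n : ℕ} (a : Fin (n + 1) → ℕ) (x : ℕ) :
    bb (sn a x) = if x < mx a then max (bb a) x else bb a := by
  apply le_antisymm
  · rw [bb_le_iff]
    intro i j hij h
    refine Fin.lastCases (motive := fun j => i < j → sn a x j < sn a x i → sn a x j ≤ _) ?_ ?_ j hij h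
    · intro hi h
      rw [sn_last] at h ⊢
      have hi' : ∃ i' : Fin (n+1), i = i'.castSucc := by
        refine Fin.lastCases (motive := fun i => i < Fin.last (n+1) → ∃ i' : Fin (n+1), i = i'.castSucc) ?_ ?_ i hi
        · intro h; exact absurd h (lt_irrefl _)
        · intro i' _; exact ⟨i', rfl⟩
      obtain ⟨i', rfl⟩ := hi'
      rw [sn_castSucc] at h
      have : x < mx a := lt_of_lt_of_le h (le_mx a i')
      rw [if_pos this]
      exact le_max_right _ _
    · intro j hij h
      have hi' : ∃ i' : Fin (n+1), i = i'.castSucc := by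
        refine Fin.lastCases (motive := fun i => i < j.castSucc → ∃ i' : Fin (n+1), i = i'.castSucc) ?_ ?_ i hij
        · intro h; exact absurd h (not_lt.mpr (Fin.le_last _))
        · intro i' _; exact ⟨i', rfl⟩
      obtain ⟨i', rfl⟩ := hi'
      rw [sn_castSucc] at h ⊢
      rw [sn_castSucc] at h
      have := le_bb a i' j (by simpa using hij) h
      split_ifs
      · exact le_max_of_le_left this
      · exact this
  · have h1 : bb a ≤ bb (sn a x) := by
      rw [bb_le_iff]
      intro i j hij h
      have := le_bb (sn a x) i.castSucc j.castSucc (by simpa using hij) (by simpa using h)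
      simpa using this
    split_ifs with hx
    · apply max_le h1
      rw [lt_mx] at hx
      obtain ⟨i, hi⟩ := hx
      have := le_bb (sn a x) i.castSucc (Fin.last (n+1)) (Fin.castSucc_lt_last i) (by simpa using hi)
      simpa using this
    · exact h1

def P {n : ℕ} (a : Fin n → ℕ) : Prop := IsWeakAscentSeq a ∧ Avoids210 a

lemma P_sn {n : ℕ} (a : Fin (n + 1) → ℕ) (x : ℕ) :
    P (sn a x) ↔ P a ∧ bb a ≤ x ∧ x ≤ ws a + 1 := by
  unfold P
  constructor
  · rintro ⟨h1, h2⟩
    refine ⟨⟨?_, ?_⟩, ?_, ?_⟩
    · intro i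
      have := h1 i.castSucc
      rw [sn_castSucc, wascBefore_sn_castSucc] at this
      simpa using this
    · intro i j k hij hjk
      have := h2 i.castSucc j.castSucc k.castSucc (by simpa using hij) (by simpa using hjk)
      simpa using this
    · rw [bb_le_iff]
      intro i j hij h
      by_contra hcon
      push Not at hcon
      have := h2 i.castSucc j.castSucc (Fin.last (n+1)) (by simpa using hij) (Fin.castSucc_lt_last j)
      simp only [sn_castSucc, sn_last] at this
      exact this ⟨h, hcon⟩
    · have := (h1 (Fin.last (n+1))).2 (by simp)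
      rw [sn_last, wascBefore_sn_last] at this
      omega
  · rintro ⟨⟨h1, h2⟩, h3, h4⟩
    refine ⟨?_, ?_⟩
    · intro i
      refine Fin.lastCases ?_ ?_ i
      · refine ⟨?_, ?_⟩
        · intro h; simp at h
        · intro _
          rw [sn_last, wascBefore_sn_last]
          omega
      · intro i
        rw [sn_castSucc, wascBefore_sn_castSucc]
        simpa using h1 i
    · rw [bb_le_iff] at h3
      intro i j k hij hjk
      refine Fin.lastCases (motive := fun k => j < k → ¬ (sn a x j < sn a x i ∧ sn a x k < sn a x j)) ?_ ?_ k hjk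
      · intro hj
        have hjv : j.val < n + 1 := hj
        have hiv : i.val < n + 1 := lt_trans hij hjv
        have e1 : j = (⟨j.val, hjv⟩ : Fin (n+1)).castSucc := by ext; simp
        have e2 : i = (⟨i.val, hiv⟩ : Fin (n+1)).castSucc := by ext; simp
        rw [e1, e2, sn_castSucc, sn_castSucc, sn_last]
        rintro ⟨h, h'⟩
        have := h3 _ _ (by exact hij) h
        omega
      · intro k hjk
        have hkv := k.isLt
        have hjk' : j.val < k.val := hjk
        have hjv : j.val < n + 1 := by omega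
        have hiv : i.val < n + 1 := lt_trans hij hjv
        have e1 : j = (⟨j.val, hjv⟩ : Fin (n+1)).castSucc := by ext; simp
        have e2 : i = (⟨i.val, hiv⟩ : Fin (n+1)).castSucc := by ext; simp
        rw [e1, e2, sn_castSucc, sn_castSucc, sn_castSucc]
        exact h2 _ _ _ hij hjk

lemma sn_surj {n : ℕ} (a : Fin (n + 2) → ℕ) : a = sn (fun i => a i.castSucc) (a (Fin.last (n+1))) := by
  funext i
  refine Fin.lastCases ?_ ?_ i
  · simp
  · intro i; simp

lemma sn_inj {n : ℕ} (a b : Fin (n + 1) → ℕ) (x y : ℕ) (h : sn a x = sn b y) : a = b ∧ x = y := by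
  constructor
  · funext i
    have := congrFun h i.castSucc
    simpa using this
  · have := congrFun h (Fin.last (n+1))
    simpa using this

lemma P_one (a : Fin 1 → ℕ) : P a ↔ a = fun _ => 0 := by
  unfold P
  constructor
  · rintro ⟨h1, _⟩
    funext i
    exact (h1 i).1 (by omega)
  · rintro rfl
    refine ⟨?_, ?_⟩
    · intro i
      refine ⟨fun _ => rfl, fun h => ?_⟩
      omega
    · intro i j k hij
      omega

/-- finite set of the sequences in question -/
def A : (n : ℕ) → Finset (Fin (n + 1) → ℕ)
  | 0 => {fun _ => 0}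
  | n + 1 => (A n).biUnion fun a => (Icc (bb a) (ws a + 1)).image (sn a)

lemma mem_A (n : ℕ) (a : Fin (n + 1) → ℕ) : a ∈ A n ↔ P a := by
  induction n with
  | zero => rw [P_one]; simp [A]
  | succ n ih =>
    simp only [A, mem_biUnion, mem_image, mem_Icc]
    constructor
    · rintro ⟨b, hb, x, hx, rfl⟩
      rw [P_sn]
      exact ⟨(ih b).1 hb, hx⟩
    · intro h
      rw [sn_surj a, P_sn] at h
      exact ⟨_, (ih _).2 h.1, _, h.2, (sn_surj a).symm⟩

lemma sum_A (n : ℕ) (F : (Fin (n + 2) → ℕ) → ℕ) :
    ∑ a ∈ A (n + 1), F a = ∑ a ∈ A n, ∑ x ∈ Icc (bb a) (ws a + 1), F (sn a x) := by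
  rw [A, Finset.sum_biUnion]
  · apply Finset.sum_congr rfl
    intro a _
    rw [Finset.sum_image]
    intro x _ y _ h
    exact (sn_inj a a x y h).2
  · intro a _ b _ hab
    rw [Function.onFun, Finset.disjoint_left]
    intro c hc hc'
    simp only [mem_image] at hc hc'
    obtain ⟨x, _, rfl⟩ := hc
    obtain ⟨y, _, h⟩ := hc'
    exact hab (sn_inj b a y x h).1.symm

lemma inv_A (n : ℕ) (a : Fin (n + 1) → ℕ) (h : P a) : mx a ≤ ws a + 1 := by
  induction n with
  | zero =>
    rw [P_one] at h
    subst h
    simp [mx]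
  | succ n ih =>
    rw [sn_surj a] at h ⊢
    set x := a (Fin.last (n+1))
    set b := fun i : Fin (n+1) => a i.castSucc
    rw [P_sn] at h
    rw [mx_sn, ws_sn]
    have := ih b h.1
    have h2 := h.2.2
    split_ifs with hx
    · omega
    · have hx' : x < b (Fin.last n) := by omega
      have := le_mx b (Fin.last n)
      omega

lemma last_le_bb {n : ℕ} (a : Fin (n + 1) → ℕ) (h : a (Fin.last n) < mx a) :
    a (Fin.last n) ≤ bb a := by
  rw [lt_mx] at h
  obtain ⟨i, hi⟩ := h
  apply le_bb a i (Fin.last n) _ hi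
  rcases lt_or_eq_of_le (Fin.le_last i) with h | h
  · exact h
  · rw [h] at hi; exact absurd hi (lt_irrefl _)

/-- first label -/
def hh {n : ℕ} (a : Fin (n + 1) → ℕ) : ℕ :=
  if a (Fin.last n) < mx a then mx a - bb a else mx a - bb a + 1

/-- second label -/
def kk {n : ℕ} (a : Fin (n + 1) → ℕ) : ℕ :=
  if a (Fin.last n) < mx a then ws a + 2 - mx a else ws a + 1 - mx a

lemma children {n : ℕ} (a : Fin (n + 1) → ℕ) (h : P a) (F : ℕ → ℕ → ℕ) :
    ∑ x ∈ Icc (bb a) (ws a + 1), F (hh (sn a x)) (kk (sn a x)) =
      (∑ j ∈ range (hh a), F (j + 1) (kk a + 1)) + ∑ i ∈ range (kk a), F (hh a + i + 1) (kk a - i) := by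
  have h1 := inv_A n a h
  have h2 := bb_le_mx a
  obtain ⟨p, hp⟩ : ∃ p, mx a = bb a + p := ⟨mx a - bb a, by omega⟩
  obtain ⟨q, hq⟩ : ∃ q, ws a + 1 = mx a + q := ⟨ws a + 1 - mx a, by omega⟩
  have hsplit : Icc (bb a) (ws a + 1) = (range p).image (fun j => bb a + j) ∪
      (range (q + 1)).image (fun i => mx a + i) := by
    ext x
    simp only [mem_Icc, mem_union, mem_image, mem_range]
    constructor
    · intro hx
      by_cases hxm : x < mx a
      · left; exact ⟨x - bb a, by omega, by omega⟩
      · right; exact ⟨x - mx a, by omega, by omega⟩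
    · rintro (⟨j, hj, rfl⟩ | ⟨i, hi, rfl⟩)
      · omega
      · omega
  have hdisj : Disjoint ((range p).image (fun j => bb a + j))
      ((range (q + 1)).image (fun i => mx a + i)) := by
    rw [Finset.disjoint_left]
    intro x hx hx'
    simp only [mem_image, mem_range] at hx hx'
    obtain ⟨j, hj, rfl⟩ := hx
    obtain ⟨i, hi, h⟩ := hx'
    omega
  rw [hsplit, Finset.sum_union hdisj, Finset.sum_image (by intro x _ y _ h; simpa using h),
    Finset.sum_image (by intro x _ y _ h; simpa using h)]
  -- labels of the children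
  have hlab2 : ∀ i ∈ range (q + 1), F (hh (sn a (mx a + i))) (kk (sn a (mx a + i))) =
      F (p + i + 1) (q + 1 - i) := by
    intro i hi
    rw [mem_range] at hi
    have hlast := le_mx a (Fin.last n)
    unfold hh kk
    rw [sn_last, mx_sn, bb_sn, ws_sn]
    have e1 : max (mx a) (mx a + i) = mx a + i := by omega
    rw [e1, if_neg (lt_irrefl _), if_neg (lt_irrefl _), if_neg (by omega), if_pos (by omega)]
    congr 1 <;> omega
  rw [Finset.sum_congr rfl hlab2]
  by_cases hrec : a (Fin.last n) < mx a
  · -- last is not a record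
    have hlb := last_le_bb a hrec
    have hlab1 : ∀ j ∈ range p, F (hh (sn a (bb a + j))) (kk (sn a (bb a + j))) =
        F (p - j) (q + 2) := by
      intro j hj
      rw [mem_range] at hj
      unfold hh kk
      rw [sn_last, mx_sn, bb_sn, ws_sn]
      have e1 : max (mx a) (bb a + j) = mx a := by omega
      have e2 : max (bb a) (bb a + j) = bb a + j := by omega
      rw [e1, e2, if_pos (by omega), if_pos (by omega), if_pos (by omega), if_pos (by omega)]
      congr 1 <;> omega
    rw [Finset.sum_congr rfl hlab1]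
    have e1 : hh a = p := by unfold hh; rw [if_pos hrec]; omega
    have e2 : kk a = q + 1 := by unfold kk; rw [if_pos hrec]; omega
    rw [e1, e2]
    congr 1
    rw [← Finset.sum_range_reflect]
    apply Finset.sum_congr rfl
    intro j hj
    rw [mem_range] at hj
    congr 1
    omega
  · have hlast := le_mx a (Fin.last n)
    have hlab1 : ∀ j ∈ range p, F (hh (sn a (bb a + j))) (kk (sn a (bb a + j))) =
        F (p - j) (q + 1) := by
      intro j hj
      rw [mem_range] at hj
      unfold hh kk
      rw [sn_last, mx_sn, bb_sn, ws_sn]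
      have e1 : max (mx a) (bb a + j) = mx a := by omega
      have e2 : max (bb a) (bb a + j) = bb a + j := by omega
      rw [e1, e2, if_pos (by omega), if_pos (by omega), if_pos (by omega), if_neg (by omega)]
      congr 1 <;> omega
    rw [Finset.sum_congr rfl hlab1]
    have e1 : hh a = p + 1 := by unfold hh; rw [if_neg hrec]; omega
    have e2 : kk a = q := by unfold kk; rw [if_neg hrec]; omega
    rw [e1, e2, Finset.sum_range_succ' (fun i => F (p + i + 1) (q + 1 - i)),
      Finset.sum_range_succ (fun j => F (j + 1) (q + 1))]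
    have e3 : ∑ j ∈ range p, F (p - j) (q + 1) = ∑ j ∈ range p, F (j + 1) (q + 1) := by
      rw [← Finset.sum_range_reflect]
      apply Finset.sum_congr rfl
      intro j hj
      rw [mem_range] at hj
      congr 1
      omega
    have e4 : ∑ i ∈ range q, F (p + (i + 1) + 1) (q + 1 - (i + 1)) =
        ∑ i ∈ range q, F (p + 1 + i + 1) (q - i) := by
      apply Finset.sum_congr rfl
      intro j hj
      congr 1 <;> omega
    rw [e3, e4]
    simp only [add_zero, Nat.sub_zero]
    ring

lemma sum_T_A (n m : ℕ) : ∑ a ∈ A n, T m (hh a) (kk a) = T (m + n) 1 1 := by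
  induction n generalizing m with
  | zero =>
    simp only [A, sum_singleton, add_zero]
    have : hh (n := 0) (fun _ => 0) = 1 := by
      simp [hh, mx, bb]
    have h2 : kk (n := 0) (fun _ => 0) = 1 := by
      simp [kk, mx, ws]
    rw [this, h2]
  | succ n ih =>
    rw [sum_A]
    have : ∀ a ∈ A n, ∑ x ∈ Icc (bb a) (ws a + 1), T m (hh (sn a x)) (kk (sn a x)) =
        T (m + 1) (hh a) (kk a) := by
      intro a ha
      rw [mem_A] at ha
      rw [children a ha]
      rfl
    rw [Finset.sum_congr rfl this, ih]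
    congr 1
    ring

lemma card_P (n : ℕ) : Nat.card {a : Fin (n + 1) → ℕ // IsWeakAscentSeq a ∧ Avoids210 a} = T n 1 1 := by
  rw [Nat.subtype_card (A n) (p := fun a => IsWeakAscentSeq a ∧ Avoids210 a) (fun a => mem_A n a)]
  have := sum_T_A n 0
  simpa [T] using this

/-! ### Permutations avoiding `2-41-3` -/

/-- append the value `a` at the end of `σ`, shifting the values `≥ a` up. -/
noncomputable def ins {n : ℕ} (σ : Equiv.Perm (Fin n)) (a : Fin (n + 1)) : Equiv.Perm (Fin (n + 1)) :=
  Equiv.ofBijective (Fin.snoc (α := fun _ => Fin (n + 1)) (fun i => a.succAbove (σ i)) a) <| by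
    rw [← Finite.injective_iff_bijective]
    intro i j
    refine Fin.lastCases ?_ ?_ i
    · refine Fin.lastCases ?_ ?_ j
      · intro _; rfl
      · intro j h
        simp only [Fin.snoc_last, Fin.snoc_castSucc] at h
        exact absurd h.symm (Fin.succAbove_ne a _)
    · intro i
      refine Fin.lastCases ?_ ?_ j
      · intro h
        simp only [Fin.snoc_last, Fin.snoc_castSucc] at h
        exact absurd h (Fin.succAbove_ne a _)
      · intro j h
        simp only [Fin.snoc_castSucc] at h
        have := Fin.succAbove_right_injective h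
        rw [σ.injective this]

@[simp] lemma ins_last {n : ℕ} (σ : Equiv.Perm (Fin n)) (a : Fin (n + 1)) :
    ins σ a (Fin.last n) = a := by
  simp [ins]

@[simp] lemma ins_castSucc {n : ℕ} (σ : Equiv.Perm (Fin n)) (a : Fin (n + 1)) (i : Fin n) :
    ins σ a i.castSucc = a.succAbove (σ i) := by
  simp [ins]

lemma ins_bijective (n : ℕ) :
    Function.Bijective (fun p : Equiv.Perm (Fin n) × Fin (n + 1) => ins p.1 p.2) := by
  rw [Fintype.bijective_iff_injective_and_card]
  constructor
  · rintro ⟨σ, a⟩ ⟨τ, b⟩ h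
    simp only at h
    have h1 : a = b := by
      have := congrArg (fun π : Equiv.Perm (Fin (n+1)) => π (Fin.last n)) h
      simpa using this
    subst h1
    have h2 : σ = τ := by
      ext i
      have := congrArg (fun π : Equiv.Perm (Fin (n+1)) => π i.castSucc) h
      simp only [ins_castSucc] at this
      rw [Fin.succAbove_right_injective this]
    rw [h2]
  · simp [Fintype.card_perm, Nat.factorial_succ, mul_comm]

/-- value of `a.succAbove v` -/
lemma sA_val {n : ℕ} (a : Fin (n + 1)) (v : Fin n) :
    (a.succAbove v).val = if v.val < a.val then v.val else v.val + 1 := by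
  unfold Fin.succAbove
  split_ifs with h1 h2 h2
  · rfl
  · exact absurd h1 h2
  · exact absurd h2 h1
  · rfl

/-- the site `c` is active -/
def Act {n : ℕ} (σ : Equiv.Perm (Fin n)) (c : ℕ) : Prop :=
  ∀ i j j' : Fin n, i < j → j'.val = j.val + 1 →
    ¬ ((σ j').val < (σ i).val ∧ (σ i).val < c ∧ c ≤ (σ j).val)

lemma avoids_ins {n : ℕ} (σ : Equiv.Perm (Fin n)) (a : Fin (n + 1)) :
    Avoids2413 (ins σ a) ↔ Avoids2413 σ ∧ Act σ a.val := by
  constructor
  · intro h
    refine ⟨?_, ?_⟩
    · intro i j j' k h1 h2 h3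
      have := h i.castSucc j.castSucc j'.castSucc k.castSucc (by simpa using h1) (by simpa using h2)
        (by simpa using h3)
      simpa [Fin.succAbove_lt_succAbove_iff] using this
    · intro i j j' h1 h2 ⟨h3, h4, h5⟩
      apply h i.castSucc j.castSucc j'.castSucc (Fin.last n) (by simpa using h1) (by simpa using h2)
        (Fin.castSucc_lt_last j')
      simp only [ins_castSucc, ins_last, Fin.lt_def, sA_val]
      refine ⟨?_, ?_, ?_⟩
      · split_ifs <;> omega
      · split_ifs <;> omega
      · split_ifs <;> omega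
  · rintro ⟨h, hA⟩ i j j' k h1 h2 h3
    have hk := k.isLt
    have h1' : i.val < j.val := h1
    have h3' : j'.val < k.val := h3
    have hi : i.val < n := by omega
    have hj : j.val < n := by omega
    have hj' : j'.val < n := by omega
    have e1 : i = (⟨i.val, hi⟩ : Fin n).castSucc := by ext; simp
    have e2 : j = (⟨j.val, hj⟩ : Fin n).castSucc := by ext; simp
    have e3 : j' = (⟨j'.val, hj'⟩ : Fin n).castSucc := by ext; simp
    rw [e1, e2, e3]
    by_cases hkl : k = Fin.last n
    · subst hkl
      simp only [ins_castSucc, ins_last, Fin.lt_def, sA_val]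
      rintro ⟨h4, h5, h6⟩
      apply hA ⟨i.val, hi⟩ ⟨j.val, hj⟩ ⟨j'.val, hj'⟩ h1 h2
      refine ⟨?_, ?_, ?_⟩
      · split_ifs at h4 <;> omega
      · split_ifs at h5 <;> omega
      · split_ifs at h6 <;> omega
    · have hkn : k.val < n := by
        have : k.val ≠ n := fun h => hkl (Fin.ext h)
        omega
      have e4 : k = (⟨k.val, hkn⟩ : Fin n).castSucc := by ext; simp
      rw [e4]
      simp only [ins_castSucc, Fin.succAbove_lt_succAbove_iff]
      exact h _ _ _ _ h1 h2 h3

/-- activity of sites after insertion -/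
lemma act_ins {n : ℕ} (σ : Equiv.Perm (Fin (n + 1))) (a : Fin (n + 2)) (c : ℕ) :
    Act (ins σ a) c ↔ Act σ (if c ≤ a.val then c else c - 1) ∧
      ¬ (a.val + 1 < c ∧ c ≤ (σ (Fin.last n)).val + 1) := by
  constructor
  · intro h
    refine ⟨?_, ?_⟩
    · intro i j j' h1 h2 ⟨h3, h4, h5⟩
      apply h i.castSucc j.castSucc j'.castSucc (by simpa using h1) (by simpa using h2)
      simp only [ins_castSucc, sA_val]
      refine ⟨?_, ?_, ?_⟩
      · split_ifs <;> omega
      · split_ifs at h4 ⊢ <;> omega
      · split_ifs at h5 ⊢ <;> omega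
    · rintro ⟨h1, h2⟩
      -- the value `a` of `σ` occurs before the last position
      have ha := a.isLt
      have hl := (σ (Fin.last n)).isLt
      have ha' : a.val < n + 1 := by omega
      set i := σ.symm ⟨a.val, ha'⟩ with hi
      have hσi : σ i = ⟨a.val, ha'⟩ := by rw [hi]; simp
      have hne : i ≠ Fin.last n := by
        intro h'
        rw [h'] at hσi
        have := congrArg Fin.val hσi
        simp only at this
        omega
      have hilt : i.val < n := by
        have := i.isLt
        have : i.val ≠ n := fun h => hne (Fin.ext h)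
        omega
      apply h i.castSucc (Fin.last n).castSucc (Fin.last (n+1)) (by simpa [Fin.lt_def] using hilt) (by simp)
      simp only [ins_castSucc, ins_last, sA_val, hσi]
      refine ⟨?_, ?_, ?_⟩
      · split_ifs <;> omega
      · split_ifs <;> omega
      · split_ifs <;> omega
  · rintro ⟨h, hn⟩ i j j' h1 h2
    have hj'lt := j'.isLt
    have h1' : i.val < j.val := h1
    have hi : i.val < n + 1 := by omega
    have hj : j.val < n + 1 := by omega
    have e1 : i = (⟨i.val, hi⟩ : Fin (n+1)).castSucc := by ext; simp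
    have e2 : j = (⟨j.val, hj⟩ : Fin (n+1)).castSucc := by ext; simp
    rw [e1, e2]
    by_cases hj'l : j' = Fin.last (n+1)
    · subst hj'l
      have hjn : j.val = n := by simpa using h2.symm
      have e5 : (⟨j.val, hj⟩ : Fin (n+1)) = Fin.last n := Fin.ext hjn
      rw [e5]
      simp only [ins_castSucc, ins_last, sA_val]
      rintro ⟨h4, h5, h6⟩
      apply hn
      have hne : (σ ⟨i.val, hi⟩).val ≠ (σ (Fin.last n)).val := by
        intro h'
        have := σ.injective (Fin.ext h')
        have := congrArg Fin.val this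
        simp only [Fin.val_last] at this
        omega
      refine ⟨?_, ?_⟩
      · split_ifs at h4 h5 <;> omega
      · split_ifs at h6 h5 h4 <;> omega
    · have hj' : j'.val < n + 1 := by
        have : j'.val ≠ n + 1 := fun h => hj'l (Fin.ext h)
        omega
      have e3 : j' = (⟨j'.val, hj'⟩ : Fin (n+1)).castSucc := by ext; simp
      rw [e3]
      simp only [ins_castSucc, sA_val]
      rintro ⟨h4, h5, h6⟩
      apply h ⟨i.val, hi⟩ ⟨j.val, hj⟩ ⟨j'.val, hj'⟩ h1 h2
      refine ⟨?_, ?_, ?_⟩
      · split_ifs at h4 <;> omega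
      · split_ifs at h5 ⊢ <;> omega
      · split_ifs at h6 ⊢ <;> omega

open Classical in
/-- active sites -/
noncomputable def sites {n : ℕ} (σ : Equiv.Perm (Fin (n + 1))) : Finset ℕ :=
  (range (n + 2)).filter (Act σ)

open Classical in
/-- number of active sites below the last value -/
noncomputable def h2 {n : ℕ} (σ : Equiv.Perm (Fin (n + 1))) : ℕ :=
  ((sites σ).filter (fun c => c ≤ (σ (Fin.last n)).val)).card

open Classical in
/-- number of active sites above the last value -/
noncomputable def k2 {n : ℕ} (σ : Equiv.Perm (Fin (n + 1))) : ℕ :=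
  ((sites σ).filter (fun c => (σ (Fin.last n)).val < c)).card

lemma mem_sites {n : ℕ} (σ : Equiv.Perm (Fin (n + 1))) (c : ℕ) :
    c ∈ sites σ ↔ c < n + 2 ∧ Act σ c := by
  simp [sites]

lemma h2_ins {n : ℕ} (σ : Equiv.Perm (Fin (n + 1))) (a : Fin (n + 2)) :
    h2 (ins σ a) = ((sites σ).filter (fun c => c ≤ a.val)).card := by
  classical
  unfold h2
  congr 1
  ext c
  simp only [mem_filter, mem_sites, ins_last, act_ins]
  have ha := a.isLt
  constructor
  · rintro ⟨⟨h1, h2, h3⟩, h4⟩
    rw [if_pos h4] at h2
    exact ⟨⟨by omega, h2⟩, h4⟩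
  · rintro ⟨⟨h1, h2⟩, h4⟩
    rw [if_pos h4]
    exact ⟨⟨by omega, h2, by omega⟩, h4⟩

lemma k2_ins_le {n : ℕ} (σ : Equiv.Perm (Fin (n + 1))) (a : Fin (n + 2)) (hA : Act σ a.val)
    (hal : a.val ≤ (σ (Fin.last n)).val) :
    k2 (ins σ a) = k2 σ + 1 := by
  classical
  have hl := (σ (Fin.last n)).isLt
  unfold k2
  have : (sites (ins σ a)).filter (fun c => (ins σ a (Fin.last (n+1))).val < c) =
      insert (a.val + 1) (((sites σ).filter (fun c => (σ (Fin.last n)).val < c)).image (fun c => c + 1)) := by
    ext c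
    simp only [mem_filter, mem_sites, ins_last, act_ins, mem_insert, mem_image]
    constructor
    · rintro ⟨⟨h1, h2, h3⟩, h4⟩
      rw [if_neg (by omega)] at h2
      by_cases hc : c = a.val + 1
      · left; exact hc
      · right
        refine ⟨c - 1, ⟨⟨by omega, h2⟩, by omega⟩, by omega⟩
    · rintro (rfl | ⟨d, ⟨⟨h1, h2⟩, h3⟩, rfl⟩)
      · rw [if_neg (by omega)]
        refine ⟨⟨by omega, ?_, by omega⟩, by omega⟩
        simpa using hA
      · rw [if_neg (by omega)]
        refine ⟨⟨by omega, ?_, by omega⟩, by omega⟩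
        simpa using h2
  rw [this, Finset.card_insert_of_notMem, Finset.card_image_of_injective]
  · intro x y h; simpa using h
  · simp only [mem_image, mem_filter, mem_sites, not_exists]
    rintro d ⟨⟨_, h2⟩, h3⟩
    omega

lemma k2_ins_gt {n : ℕ} (σ : Equiv.Perm (Fin (n + 1))) (a : Fin (n + 2))
    (hal : (σ (Fin.last n)).val < a.val) :
    k2 (ins σ a) = ((sites σ).filter (fun c => a.val ≤ c)).card := by
  classical
  have hl := (σ (Fin.last n)).isLt
  unfold k2
  have : (sites (ins σ a)).filter (fun c => (ins σ a (Fin.last (n+1))).val < c) =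
      (((sites σ).filter (fun c => a.val ≤ c)).image (fun c => c + 1)) := by
    ext c
    simp only [mem_filter, mem_sites, ins_last, act_ins, mem_image]
    constructor
    · rintro ⟨⟨h1, h2, h3⟩, h4⟩
      rw [if_neg (by omega)] at h2
      exact ⟨c - 1, ⟨⟨by omega, h2⟩, by omega⟩, by omega⟩
    · rintro ⟨d, ⟨⟨h1, h2⟩, h3⟩, rfl⟩
      rw [if_neg (by omega)]
      refine ⟨⟨by omega, ?_, by omega⟩, by omega⟩
      simpa using h2
  rw [this, Finset.card_image_of_injective]
  intro x y h; simpa using h

/-- summation over a finite set by rank -/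
lemma sum_rank (S : Finset ℕ) (G : ℕ → ℕ) :
    ∑ a ∈ S, G ((S.filter (fun c => c < a)).card) = ∑ i ∈ range S.card, G i := by
  classical
  induction S using Finset.induction_on_max with
  | empty => simp
  | insert a s ha ih =>
    have hns : a ∉ s := fun h => lt_irrefl _ (ha a h)
    rw [Finset.sum_insert hns, Finset.card_insert_of_notMem hns, Finset.sum_range_succ, ← ih]
    have e1 : (insert a s).filter (fun c => c < a) = s := by
      ext c
      simp only [mem_filter, mem_insert]
      constructor
      · rintro ⟨rfl | h, h'⟩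
        · exact absurd h' (lt_irrefl _)
        · exact h
      · intro h
        exact ⟨Or.inr h, ha c h⟩
    rw [e1, add_comm]
    congr 1
    apply Finset.sum_congr rfl
    intro b hb
    congr 2
    ext c
    simp only [mem_filter, mem_insert]
    constructor
    · rintro ⟨rfl | h, h'⟩
      · exact absurd (ha b hb) (not_lt.mpr h'.le)
      · exact ⟨h, h'⟩
    · rintro ⟨h, h'⟩
      exact ⟨Or.inr h, h'⟩

open Classical in
/-- the avoiding permutations -/
noncomputable def B (n : ℕ) : Finset (Equiv.Perm (Fin (n + 1))) := univ.filter Avoids2413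

open Classical in
lemma sum_B (n : ℕ) (F : Equiv.Perm (Fin (n + 2)) → ℕ) :
    ∑ π ∈ B (n + 1), F π = ∑ σ ∈ B n, ∑ a ∈ univ.filter (fun a : Fin (n + 2) => Act σ a.val), F (ins σ a) := by
  unfold B
  rw [Finset.sum_filter, Finset.sum_filter]
  rw [← (Equiv.ofBijective _ (ins_bijective (n + 1))).sum_comp, Fintype.sum_prod_type]
  apply Finset.sum_congr rfl
  intro σ _
  simp only [Equiv.ofBijective_apply, avoids_ins]
  rw [Finset.sum_filter]
  by_cases h : Avoids2413 σ
  · simp [h]
  · simp [h]

lemma children2 {n : ℕ} (σ : Equiv.Perm (Fin (n + 1))) (F : ℕ → ℕ → ℕ) [DecidablePred (fun a : Fin (n + 2) => Act σ a.val)] :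
    ∑ a ∈ univ.filter (fun a : Fin (n + 2) => Act σ a.val), F (h2 (ins σ a)) (k2 (ins σ a)) =
      (∑ j ∈ range (h2 σ), F (j + 1) (k2 σ + 1)) + ∑ i ∈ range (k2 σ), F (h2 σ + i + 1) (k2 σ - i) := by
  classical
  set l := (σ (Fin.last n)).val with hl
  set S := sites σ with hS
  -- transfer to a sum over sites
  have step1 : ∑ a ∈ univ.filter (fun a : Fin (n + 2) => Act σ a.val), F (h2 (ins σ a)) (k2 (ins σ a)) =
      ∑ c ∈ S, if c ≤ l then F ((S.filter (fun d => d ≤ c)).card) (k2 σ + 1) else
        F ((S.filter (fun d => d ≤ c)).card) ((S.filter (fun d => c ≤ d)).card) := by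
    apply Finset.sum_bij (fun a _ => a.val)
    · intro a ha
      simp only [mem_filter, mem_univ, true_and] at ha
      rw [hS, mem_sites]
      exact ⟨a.isLt, ha⟩
    · intro a _ b _ h
      exact Fin.ext h
    · intro c hc
      rw [hS, mem_sites] at hc
      exact ⟨⟨c, hc.1⟩, by simpa using hc.2, rfl⟩
    · intro a ha
      simp only [mem_filter, mem_univ, true_and] at ha
      split_ifs with h
      · rw [h2_ins, k2_ins_le σ a ha h]
      · rw [h2_ins, k2_ins_gt σ a (by omega)]
  rw [step1]
  rw [← Finset.sum_filter_add_sum_filter_not S (fun c => c ≤ l)]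
  have hnot : S.filter (fun c => ¬ c ≤ l) = S.filter (fun c => l < c) := by
    ext c; simp
  congr 1
  · -- sites below
    set S1 := S.filter (fun c => c ≤ l) with hS1
    have hcard : h2 σ = S1.card := rfl
    rw [hcard, ← sum_rank S1 (fun j => F (j + 1) (k2 σ + 1))]
    apply Finset.sum_congr rfl
    intro c hc
    rw [hS1, mem_filter] at hc
    rw [if_pos hc.2]
    congr 1
    have : S.filter (fun d => d ≤ c) = insert c (S1.filter (fun d => d < c)) := by
      ext d
      simp only [mem_filter, mem_insert, hS1]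
      constructor
      · rintro ⟨h, h'⟩
        by_cases hdc : d = c
        · left; exact hdc
        · right; exact ⟨⟨h, by omega⟩, by omega⟩
      · rintro (rfl | ⟨⟨h, _⟩, h'⟩)
        · exact ⟨hc.1, le_refl _⟩
        · exact ⟨h, h'.le⟩
    rw [this, Finset.card_insert_of_notMem]
    simp
  · -- sites above
    rw [hnot]
    set S2 := S.filter (fun c => l < c) with hS2
    have hcard : k2 σ = S2.card := rfl
    rw [hcard, ← sum_rank S2 (fun i => F (h2 σ + i + 1) (S2.card - i))]
    apply Finset.sum_congr rfl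
    intro c hc
    rw [hS2, mem_filter] at hc
    rw [if_neg (by omega)]
    have e1 : (S.filter (fun d => d ≤ c)).card = h2 σ + (S2.filter (fun d => d < c)).card + 1 := by
      have : S.filter (fun d => d ≤ c) = insert c ((S.filter (fun d => d ≤ l)) ∪ (S2.filter (fun d => d < c))) := by
        ext d
        simp only [mem_filter, mem_insert, mem_union, hS2]
        constructor
        · rintro ⟨h, h'⟩
          by_cases hdc : d = c
          · left; exact hdc
          · right
            by_cases hdl : d ≤ l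
            · left; exact ⟨h, hdl⟩
            · right; exact ⟨⟨h, by omega⟩, by omega⟩
        · rintro (rfl | ⟨h, _⟩ | ⟨⟨h, _⟩, h'⟩)
          · exact ⟨hc.1, le_refl _⟩
          · exact ⟨h, by omega⟩
          · exact ⟨h, h'.le⟩
      rw [this, Finset.card_insert_of_notMem, Finset.card_union_of_disjoint]
      · rfl
      · rw [Finset.disjoint_left]
        intro d hd hd'
        simp only [mem_filter, hS2] at hd hd'
        omega
      · simp only [mem_union, mem_filter, hS2]
        rintro (⟨_, h⟩ | ⟨_, h⟩)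
        · omega
        · omega
    have e2 : (S.filter (fun d => c ≤ d)).card = S2.card - (S2.filter (fun d => d < c)).card := by
      have h1 : S.filter (fun d => c ≤ d) = S2.filter (fun d => ¬ d < c) := by
        ext d
        simp only [mem_filter, hS2, not_lt]
        constructor
        · rintro ⟨h, h'⟩
          exact ⟨⟨h, by omega⟩, h'⟩
        · rintro ⟨⟨h, _⟩, h'⟩
          exact ⟨h, h'⟩
      have h2 := Finset.card_filter_add_card_filter_not (s := S2) (fun d => d < c)
      rw [h1]
      omega
    rw [e1, e2]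

lemma sum_T_B (n m : ℕ) : ∑ π ∈ B n, T m (h2 π) (k2 π) = T (m + n) 1 1 := by
  classical
  induction n generalizing m with
  | zero =>
    have hB : B 0 = {1} := by
      ext π
      simp only [B, mem_filter, mem_univ, true_and, mem_singleton]
      constructor
      · intro _
        ext i
        omega
      · intro _ i j j' k h1
        omega
    have hact : ∀ c, Act (1 : Equiv.Perm (Fin 1)) c := by
      intro c i j j' h
      omega
    have hs : sites (n := 0) 1 = range 2 := by
      ext c
      rw [mem_sites]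
      simp [hact]
    have e1 : h2 (n := 0) 1 = 1 := by
      unfold h2
      rw [hs]
      rfl
    have e2 : k2 (n := 0) 1 = 1 := by
      unfold k2
      rw [hs]
      rfl
    rw [hB, sum_singleton, e1, e2, add_zero]
  | succ n ih =>
    rw [sum_B]
    have : ∀ σ ∈ B n, ∑ a ∈ univ.filter (fun a : Fin (n + 2) => Act σ a.val), T m (h2 (ins σ a)) (k2 (ins σ a)) =
        T (m + 1) (h2 σ) (k2 σ) := by
      intro σ _
      rw [children2 σ (T m)]
      rfl
    rw [Finset.sum_congr rfl this, ih]
    congr 1
    ring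

lemma card_Q (n : ℕ) : Nat.card {π : Equiv.Perm (Fin (n + 1)) // Avoids2413 π} = T n 1 1 := by
  classical
  rw [Nat.subtype_card (B n) (p := fun π => Avoids2413 π) (fun π => by simp [B])]
  have := sum_T_B n 0
  simpa [T] using this

/-- For every `n ≥ 1`, the number of weak ascent sequences of length `n` avoiding `210` equals
the number of permutations of `n` letters avoiding the vincular pattern `2-41-3`. -/
theorem result (n : ℕ) (hn : 1 ≤ n) :
    Nat.card {a : Fin n → ℕ // IsWeakAscentSeq a ∧ Avoids210 a} =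
      Nat.card {π : Equiv.Perm (Fin n) // Avoids2413 π} := by
  obtain ⟨m, rfl⟩ : ∃ m, n = m + 1 := ⟨n - 1, by omega⟩
  rw [card_P, card_Q]

end Pool.Agent.Results.MP_5aad23_co.WeakAscent210
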